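import Pool.Agent.Lib.H33S.Rack

/-!
# Chunk K1 (S/M): the idempotent of the component of a point

Among the ideals `span {1 - f}`, `f` idempotent with `ε f = 1` (a nonempty set: `f = 1`), take a maximal one (`A` is Noetherian:
`set_has_maximal_iff_noetherian` or `WellFoundedGT.wf.has_min`-like), `span {1 - e}`. Let `f` be idempotent with `f * e = f`.
`ε f` is idempotent in `k`, so `0` or `1`.
* `ε f = 1`: `(1 - e) * (1 - f) = 1 - e - f + f * e = 1 - e`, so `span {1 - e} ≤ span {1 - f}`; by maximality they are equal, `1 - f = (1 - e) * a`,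
  so `e * (1 - f) = 0` (as `e * (1 - e) = 0`), `e = e * f = f`.
* `ε f = 0`: `e - f` is idempotent (`(e - f)^2 = e - 2 f e + f = e - f`), `(e - f) * e = e - f`, `ε (e - f) = 1`, so `e - f = e`, `f = 0`.
-/

namespace Pool.Agent.Lib.H33K

open Pool.Agent.Lib.H33S

universe u

theorem exists_idem {k A : Type u} [Field k] [CommRing A] [Algebra k A] [IsNoetherianRing A]
    (ε : A →ₐ[k] k) :
    ∃ e : A, IsIdempotentElem e ∧ ε e = 1 ∧
      ∀ f : A, IsIdempotentElem f → f * e = f → f = 0 ∨ f = e := by
  obtain ⟨I, ⟨e, he, he1, rfl⟩, hmax⟩ := set_has_maximal_iff_noetherian.2 ‹IsNoetherianRing A›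
    {I : Ideal A | ∃ f : A, IsIdempotentElem f ∧ ε f = 1 ∧ I = Ideal.span {1 - f}}
    ⟨_, 1, IsIdempotentElem.one, map_one ε, rfl⟩
  have key : ∀ f : A, IsIdempotentElem f → f * e = f → ε f = 1 → f = e := by
    intro f hf hfe hf1
    have h1 : Ideal.span {1 - e} ≤ Ideal.span {1 - f} := by
      rw [Ideal.span_singleton_le_span_singleton]
      refine ⟨1 - e, ?_⟩
      have e1 : (1 - f) * (1 - e) = 1 - e - f + f * e := by ring
      rw [e1, hfe]
      ring
    have h2 : ¬ Ideal.span {1 - e} < Ideal.span {1 - f} := hmax _ ⟨f, hf, hf1, rfl⟩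
    have h3 : Ideal.span {1 - f} ≤ Ideal.span {1 - e} := by
      by_contra h
      exact h2 (lt_of_le_not_ge h1 h)
    rw [Ideal.span_singleton_le_span_singleton] at h3
    obtain ⟨a, ha⟩ := h3
    have h4 : e * (1 - f) = 0 := by
      rw [ha, ← mul_assoc, mul_sub, mul_one, he.eq, sub_self, zero_mul]
    have h5 : e = f * e := by
      have : e * (1 - f) = e - f * e := by ring
      rw [this] at h4
      exact sub_eq_zero.1 h4
    rw [h5, hfe]
  refine ⟨e, he, he1, ?_⟩
  intro f hf hfe
  have h0 : IsIdempotentElem (ε f) := hf.map ε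
  rcases (IsIdempotentElem.iff_eq_zero_or_one.1 h0) with h | h
  · left
    have hg : IsIdempotentElem (e - f) := by
      unfold IsIdempotentElem
      have e1 : (e - f) * (e - f) = e * e - f * e - f * e + f * f := by ring
      rw [e1, he.eq, hf.eq, hfe]
      ring
    have hge : (e - f) * e = e - f := by rw [sub_mul, he.eq, hfe]
    have hg1 : ε (e - f) = 1 := by rw [map_sub, he1, h, sub_zero]
    have := key _ hg hge hg1
    exact (sub_eq_self.1 this)
  · right
    exact key f hf hfe h

/-- The quotient `A ⧸ (1 - e)` has only trivial idempotents: for `b = mk a` idempotent, `a^2 - a ∈ span {1 - e}`, so `e a^2 = e a`,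
`f = e a` is idempotent with `f e = f`, and `mk f = mk a` because `mk e = 1`. -/
theorem quot_idem {A : Type u} [CommRing A] {e : A} (he : IsIdempotentElem e)
    (h : ∀ f : A, IsIdempotentElem f → f * e = f → f = 0 ∨ f = e)
    (b : A ⧸ Ideal.span {1 - e}) (hb : IsIdempotentElem b) : b = 0 ∨ b = 1 := by
  obtain ⟨a, rfl⟩ := Ideal.Quotient.mk_surjective b
  have h1 : e * (1 - e) = 0 := by rw [mul_sub, mul_one, he.eq, sub_self]
  have h2 : a * a - a ∈ Ideal.span {1 - e} := by
    rw [← Ideal.Quotient.eq_zero_iff_mem, map_sub, map_mul, hb.eq, sub_self]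
  obtain ⟨c, hc⟩ := Ideal.mem_span_singleton'.1 h2
  have h3 : e * (a * a) = e * a := by
    have : e * (a * a - a) = 0 := by rw [← hc, mul_left_comm, h1, mul_zero]
    rw [mul_sub] at this
    exact sub_eq_zero.1 this
  have hf : IsIdempotentElem (e * a) := by
    unfold IsIdempotentElem
    have e1 : e * a * (e * a) = e * e * (a * a) := by ring
    rw [e1, he.eq, h3]
  have hfe : e * a * e = e * a := by
    have e1 : e * a * e = e * e * a := by ring
    rw [e1, he.eq]
  have hmk : (Ideal.Quotient.mk (Ideal.span {1 - e})) e = 1 := by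
    have : (Ideal.Quotient.mk (Ideal.span {1 - e})) (1 - e) = 0 :=
      Ideal.Quotient.eq_zero_iff_mem.2 (Ideal.mem_span_singleton_self _)
    rw [map_sub, map_one, sub_eq_zero] at this
    exact this.symm
  have hma : (Ideal.Quotient.mk (Ideal.span {1 - e})) a =
      (Ideal.Quotient.mk (Ideal.span {1 - e})) (e * a) := by
    rw [map_mul, hmk, one_mul]
  rcases h (e * a) hf hfe with h4 | h4
  · left
    rw [hma, h4, map_zero]
  · right
    rw [hma, h4, hmk]

end Pool.Agent.Lib.H33K
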