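import Pool.Agent.Lib.H33K.K3a

/-!
# Chunk K3 (M): connectedness of `K ⊗ B`

`G = (K ≃ₐ[k] K)` is finite. For `g : G` let `T_g = Algebra.TensorProduct.map g (AlgHom.id k B)`, an algebra endomorphism of `K ⊗ B`;
`T_g ∘ T_h = T_(g h)`. `P = ∏_g T_g u` is invariant (`Fintype.prod_equiv` / `Finset.prod_bij`, `Group.mulLeft_bijective`), idempotent (a product of
idempotents; `T_g u` is idempotent), so `P = 1 ⊗ b` (`invariant_mem`), and `b` is idempotent because `b ↦ 1 ⊗ b` is injective
(`Algebra.TensorProduct.includeRight_injective`, `K` is free over `k` ; or `Module.FaithfullyFlat`). So `b = 0` or `b = 1`.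
Let `φ = pt K ε : K ⊗ B →ₐ[k] K`, `x ⊗ c ↦ x * algebraMap (ε c)`. `φ (T_g z) = g (φ z)` (`TensorProduct.induction_on`), so `φ P = ∏ g (φ u) = 1`, but
`φ (1 ⊗ b) = algebraMap (ε b)`, so `b ≠ 0` and `b = 1`, `P = 1`. Finally `P = u * P'` (factor `g = 1`), so `u * P = u * u * P' = P`, i.e. `u = 1`.
-/

namespace Pool.Agent.Lib.H33K

open scoped TensorProduct

/-- The homomorphism `K ⊗ B → K`, `x ⊗ b ↦ x ε(b)`. -/
noncomputable def ptK {k : Type*} (K : Type*) {B : Type*} [Field k] [Field K] [Algebra k K] [CommRing B]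
    [Algebra k B] (ε : B →ₐ[k] k) : K ⊗[k] B →ₐ[k] K :=
  Algebra.TensorProduct.lift (AlgHom.id k K) ((Algebra.ofId k K).comp ε) (fun _ _ => Commute.all _ _)

/-- The action of the Galois group. -/
noncomputable def k3T {k K : Type*} (B : Type*) [Field k] [Field K] [Algebra k K] [CommRing B]
    [Algebra k B] (g : K ≃ₐ[k] K) : K ⊗[k] B →ₐ[k] K ⊗[k] B :=
  Algebra.TensorProduct.map (g : K →ₐ[k] K) (AlgHom.id k B)

theorem k3T_tmul {k K B : Type*} [Field k] [Field K] [Algebra k K] [CommRing B]
    [Algebra k B] (g : K ≃ₐ[k] K) (x : K) (b : B) : k3T B g (x ⊗ₜ[k] b) = g x ⊗ₜ[k] b := rfl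

theorem k3T_mul {k K B : Type*} [Field k] [Field K] [Algebra k K] [CommRing B]
    [Algebra k B] (g h : K ≃ₐ[k] K) (z : K ⊗[k] B) : k3T B g (k3T B h z) = k3T B (g * h) z := by
  induction z using TensorProduct.induction_on with
  | zero => simp only [map_zero]
  | add x y hx hy => simp only [map_add, hx, hy]
  | tmul x y => rfl

theorem k3T_one {k K B : Type*} [Field k] [Field K] [Algebra k K] [CommRing B]
    [Algebra k B] (z : K ⊗[k] B) : k3T B (1 : K ≃ₐ[k] K) z = z := by
  induction z using TensorProduct.induction_on with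
  | zero => simp only [map_zero]
  | add x y hx hy => simp only [map_add, hx, hy]
  | tmul x y => rfl

theorem k3_pt {k K B : Type*} [Field k] [Field K] [Algebra k K] [CommRing B]
    [Algebra k B] (ε : B →ₐ[k] k) (g : K ≃ₐ[k] K) (z : K ⊗[k] B) :
    ptK K ε (k3T B g z) = g (ptK K ε z) := by
  induction z using TensorProduct.induction_on with
  | zero => simp only [map_zero]
  | add x y hx hy => simp only [map_add, hx, hy]
  | tmul x y =>
    rw [k3T_tmul]
    simp only [ptK, Algebra.TensorProduct.lift_tmul, AlgHom.id_apply, AlgHom.comp_apply,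
      Algebra.ofId_apply, map_mul, AlgEquiv.commutes]

theorem idem_tensor {k K B : Type*} [Field k] [Field K] [Algebra k K] [FiniteDimensional k K]
    [IsGalois k K] [CommRing B] [Algebra k B] (hB : ∀ b : B, IsIdempotentElem b → b = 0 ∨ b = 1)
    (ε : B →ₐ[k] k) (u : K ⊗[k] B) (hu : IsIdempotentElem u) (h1 : ptK K ε u = 1) : u = 1 := by
  classical
  have hfin := Fintype.ofFinite (K ≃ₐ[k] K)
  let P : K ⊗[k] B := ∏ g : K ≃ₐ[k] K, k3T B g u
  have hinv : ∀ g : K ≃ₐ[k] K, k3T B g P = P := by
    intro g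
    simp only [P, map_prod, k3T_mul]
    exact (Group.mulLeft_bijective g).prod_comp (fun h => k3T B h u)
  obtain ⟨b, hb⟩ := invariant_mem P hinv
  have hP : P * P = P := by
    simp only [P, ← Finset.prod_mul_distrib]
    apply Finset.prod_congr rfl
    intro g _
    rw [← map_mul, hu.eq]
  have hφ : ptK K ε P = 1 := by
    simp only [P, map_prod, k3_pt, h1, map_one, Finset.prod_const_one]
  have hbb : IsIdempotentElem b := by
    have h2 : (1 : K) ⊗ₜ[k] (b * b) = (1 : K) ⊗ₜ[k] b := by
      rw [hb, Algebra.TensorProduct.tmul_mul_tmul, one_mul] at hP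
      exact hP
    exact Algebra.TensorProduct.includeRight_injective (algebraMap k K).injective h2
  have hb1 : b = 1 := by
    rcases hB b hbb with h | h
    · exfalso
      rw [hb, h, TensorProduct.tmul_zero, map_zero] at hφ
      exact zero_ne_one hφ
    · exact h
  have hP1 : P = 1 := by
    rw [hb, hb1]
    rfl
  have huP : u * P = P := by
    have h3 : P = u * ∏ g ∈ Finset.univ.erase (1 : K ≃ₐ[k] K), k3T B g u := by
      simp only [P]
      rw [← Finset.mul_prod_erase Finset.univ (fun g => k3T B g u) (Finset.mem_univ 1), k3T_one]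
    rw [h3, ← mul_assoc, hu.eq]
  rw [hP1, mul_one] at huP
  exact huP

end Pool.Agent.Lib.H33K
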