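import Pool.Agent.Lib.H33S.Rack

/-!
# Chunk K3a (M): Galois invariants of `K ⊗ B`

Take a basis `b_i` of `B` over `k` (`Module.Basis.ofVectorSpace`); `1 ⊗ b_i` is a `K`-basis of `K ⊗ B` (`Module.Basis.baseChange`,
`Algebra.TensorProduct.basis`). Write `P = ∑ x_i ⊗ b_i`. The map `g ⊗ 1` sends `∑ x_i ⊗ b_i` to `∑ g x_i ⊗ b_i`
(`TensorProduct.induction_on`: `repr ((g ⊗ 1) P) i = g (repr P i)`), so invariance gives `g x_i = x_i` for all `g`, hence
`x_i ∈ k` (`IsGalois.mem_bot_iff_fixed` or `IsGalois.tfae`-like, `IntermediateField.mem_bot`), and `P = ∑ 1 ⊗ x_i b_i`.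
-/

namespace Pool.Agent.Lib.H33K

open scoped TensorProduct

theorem k3a_repr {k K B ι : Type*} [Field k] [Field K] [Algebra k K] [CommRing B] [Algebra k B]
    (b : Module.Basis ι k B) (g : K ≃ₐ[k] K) (P : K ⊗[k] B) (i : ι) :
    (Algebra.TensorProduct.basis K b).repr
      (Algebra.TensorProduct.map (g : K →ₐ[k] K) (AlgHom.id k B) P) i =
      g ((Algebra.TensorProduct.basis K b).repr P i) := by
  induction P using TensorProduct.induction_on with
  | zero => simp
  | add x y hx hy => simp only [map_add, Finsupp.add_apply, hx, hy]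
  | tmul x y =>
    rw [Algebra.TensorProduct.map_tmul, Algebra.TensorProduct.basis_repr_tmul,
      Algebra.TensorProduct.basis_repr_tmul, Finsupp.smul_apply, Finsupp.smul_apply,
      Finsupp.mapRange_apply, Finsupp.mapRange_apply, smul_eq_mul, smul_eq_mul, map_mul,
      AlgEquiv.commutes]
    rfl

theorem invariant_mem {k K B : Type*} [Field k] [Field K] [Algebra k K] [FiniteDimensional k K]
    [IsGalois k K] [CommRing B] [Algebra k B] (P : K ⊗[k] B)
    (h : ∀ g : K ≃ₐ[k] K,
      Algebra.TensorProduct.map (g : K →ₐ[k] K) (AlgHom.id k B) P = P) :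
    ∃ b : B, P = 1 ⊗ₜ[k] b := by
  let b := Module.Basis.ofVectorSpace k B
  let bb := Algebra.TensorProduct.basis K b
  have h1 : ∀ i, ∃ c : k, algebraMap k K c = bb.repr P i := by
    intro i
    have h2 : bb.repr P i ∈ Set.range (algebraMap k K) := by
      rw [IsGalois.mem_range_algebraMap_iff_fixed]
      intro g
      rw [← k3a_repr b g P i, h g]
    exact h2
  choose c hc using h1
  refine ⟨∑ i ∈ (bb.repr P).support, c i • b i, ?_⟩
  rw [TensorProduct.tmul_sum]
  conv_lhs => rw [← bb.linearCombination_repr P, Finsupp.linearCombination_apply, Finsupp.sum]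
  apply Finset.sum_congr rfl
  intro i _
  rw [← hc i, TensorProduct.tmul_smul, Algebra.TensorProduct.basis_apply, algebraMap_smul]

end Pool.Agent.Lib.H33K
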