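import Pool.Agent.Lib.H33K.K3
import Pool.Agent.Lib.H33S.Rack

/-!
# Chunk K4 (M/L): connectedness of a product

Let `f = 1 - u`, idempotent, and suppose `f ≠ 0`. `f` is not in the Jacobson radical (otherwise `1 - f` is a unit and idempotent, so `1 - f = 1`),
so there is a maximal ideal `M` of `T = B ⊗ B` with `f ∉ M` (`Ideal.mem_jacobson_bot`, `Ring.jacobson`/`Ideal.jacobson`; or: the annihilator
`span {1 - f}` of the idempotent `f` is proper, take `M ≥ span {1 - f}` maximal: `1 - f ∈ M` and so `f ∉ M`. This is simpler: `u = 1 - f ∈ M`).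
`L = T ⧸ M` is a field, finite over `k` (`Algebra.FiniteType k T`, Zariski's lemma:
`finite_of_finite_type_of_isJacobsonRing k (T ⧸ M)`). Let `K` be the normal closure of `L / k` in `AlgebraicClosure L`
(`normalClosure k L (AlgebraicClosure L)`, `normalClosure.is_finiteDimensional`, `normalClosure.normal`), `IsGalois k K` in characteristic `0`.
So there is an algebra homomorphism `z : T → K` with `z u = 0`.
`x = z ∘ includeLeft`, `y = z ∘ includeRight`. `w = (Algebra.TensorProduct.map x (AlgHom.id k B)) u ∈ K ⊗ B` is idempotent, and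
`ptK K ε w = x ((1 ⊗ ε) u)` (both sides are algebra homomorphisms of `u`, `Algebra.TensorProduct.ext'`), where `1 ⊗ ε : B ⊗ B → B`, and
`(1 ⊗ ε) u` is idempotent in `B` with `ε ((1 ⊗ ε) u) = pair ε ε u = 1`, so it is `≠ 0` and hence `= 1`. So `ptK K ε w = 1` and `w = 1` by
`idem_tensor`. Then `z u = (id · y) w = 1` (`z = (lift id y) ∘ (map x id)`, `Algebra.TensorProduct.ext'`), but `z u = 0`.
-/

namespace Pool.Agent.Lib.H33K

open scoped TensorProduct
open Pool.Agent.Lib.H33S

universe u

/-- A finite Galois point at which `u` vanishes. -/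
theorem k4_point {k T : Type u} [Field k] [CharZero k] [CommRing T] [Algebra k T]
    [Algebra.FiniteType k T] (u : T) (hu : IsIdempotentElem u) (hne : u ≠ 1) :
    ∃ (K : Type u) (_ : Field K) (_ : Algebra k K) (_ : FiniteDimensional k K) (_ : IsGalois k K)
      (z : T →ₐ[k] K), z u = 0 := by
  have h1 : Ideal.span {u} ≠ ⊤ := by
    intro h
    rw [Ideal.span_singleton_eq_top] at h
    obtain ⟨v, hv⟩ := h.exists_right_inv
    apply hne
    calc u = u * (u * v) := by rw [hv, mul_one]
      _ = u * v := by rw [← mul_assoc, hu.eq]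
      _ = 1 := hv
  obtain ⟨M, hM, hle⟩ := Ideal.exists_le_maximal _ h1
  have huM : u ∈ M := hle (Ideal.mem_span_singleton_self u)
  let _ : Field (T ⧸ M) := Ideal.Quotient.field M
  have hft : Algebra.FiniteType k (T ⧸ M) :=
    Algebra.FiniteType.of_surjective (Ideal.Quotient.mkₐ k M) (Ideal.Quotient.mkₐ_surjective k M)
  have hfin : Module.Finite k (T ⧸ M) := finite_of_finite_type_of_isJacobsonRing k (T ⧸ M)
  have halg : Algebra.IsAlgebraic k (T ⧸ M) := Algebra.IsAlgebraic.of_finite k (T ⧸ M)
  let f : (T ⧸ M) →ₐ[k] AlgebraicClosure k := IsAlgClosed.lift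
  let K : IntermediateField k (AlgebraicClosure k) :=
    IntermediateField.normalClosure k (T ⧸ M) (AlgebraicClosure k)
  have hK : FiniteDimensional k K := inferInstance
  have hN : Normal k K := inferInstance
  have hG : IsGalois k K := { }
  let g : (T ⧸ M) →ₐ[k] K := f.codRestrict K.toSubalgebra
    (fun x => f.fieldRange_le_normalClosure ⟨x, rfl⟩)
  refine ⟨K, inferInstance, inferInstance, hK, hG, g.comp (Ideal.Quotient.mkₐ k M), ?_⟩
  rw [AlgHom.comp_apply]
  have h2 : Ideal.Quotient.mkₐ k M u = 0 := Ideal.Quotient.eq_zero_iff_mem.2 huM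
  rw [h2, map_zero]

/-- The map `1 ⊗ ε`. -/
noncomputable def k4s {k B : Type u} [Field k] [CommRing B] [Algebra k B] (ε : B →ₐ[k] k) :
    B ⊗[k] B →ₐ[k] B :=
  Algebra.TensorProduct.lift (AlgHom.id k B) ((Algebra.ofId k B).comp ε) (fun _ _ => Commute.all _ _)

theorem k4s_eps {k B : Type u} [Field k] [CommRing B] [Algebra k B] (ε : B →ₐ[k] k)
    (t : B ⊗[k] B) : ε (k4s ε t) = pair ε ε t := by
  induction t using TensorProduct.induction_on with
  | zero => simp only [map_zero]
  | add x y hx hy => simp only [map_add, hx, hy]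
  | tmul x y =>
    simp only [k4s, pair, Algebra.TensorProduct.lift_tmul, AlgHom.id_apply, AlgHom.comp_apply,
      Algebra.ofId_apply, map_mul, AlgHom.commutes, Algebra.algebraMap_self, RingHom.id_apply]

theorem k4s_pt {k B K : Type u} [Field k] [CommRing B] [Algebra k B] [Field K] [Algebra k K]
    (ε : B →ₐ[k] k) (x : B →ₐ[k] K) (t : B ⊗[k] B) :
    ptK K ε (Algebra.TensorProduct.map x (AlgHom.id k B) t) = x (k4s ε t) := by
  induction t using TensorProduct.induction_on with
  | zero => simp only [map_zero]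
  | add x y hx hy => simp only [map_add, hx, hy]
  | tmul a b =>
    simp only [k4s, ptK, Algebra.TensorProduct.map_tmul, Algebra.TensorProduct.lift_tmul,
      AlgHom.id_apply, AlgHom.comp_apply, Algebra.ofId_apply, map_mul, AlgHom.commutes]

theorem idem_prod {k B : Type u} [Field k] [CharZero k] [CommRing B] [Algebra k B]
    [Algebra.FiniteType k B] (hB : ∀ b : B, IsIdempotentElem b → b = 0 ∨ b = 1)
    (ε : B →ₐ[k] k) (u : B ⊗[k] B) (hu : IsIdempotentElem u) (h1 : pair ε ε u = 1) : u = 1 := by
  by_contra hne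
  have hft1 : Algebra.FiniteType B (B ⊗[k] B) := Algebra.FiniteType.baseChange B
  have hft : Algebra.FiniteType k (B ⊗[k] B) := Algebra.FiniteType.trans (S := B) inferInstance hft1
  obtain ⟨K, _, _, _, _, z, hz⟩ := k4_point (k := k) u hu hne
  let x : B →ₐ[k] K := z.comp Algebra.TensorProduct.includeLeft
  let y : B →ₐ[k] K := z.comp Algebra.TensorProduct.includeRight
  have hs : k4s ε u = 1 := by
    rcases hB _ (hu.map (k4s ε)) with h | h
    · exfalso
      have := k4s_eps ε u
      rw [h, h1, map_zero] at this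
      exact zero_ne_one this
    · exact h
  have hw : Algebra.TensorProduct.map x (AlgHom.id k B) u = 1 := by
    apply idem_tensor hB ε _ (hu.map (Algebra.TensorProduct.map x (AlgHom.id k B)))
    rw [k4s_pt, hs, map_one]
  have hzt : ∀ t : B ⊗[k] B, z t = Algebra.TensorProduct.lift (AlgHom.id k K) y
      (fun _ _ => Commute.all _ _) (Algebra.TensorProduct.map x (AlgHom.id k B) t) := by
    intro t
    induction t using TensorProduct.induction_on with
    | zero => simp only [map_zero]
    | add x y hx hy => simp only [map_add, hx, hy]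
    | tmul a b =>
      rw [Algebra.TensorProduct.map_tmul, Algebra.TensorProduct.lift_tmul]
      have e1 : a ⊗ₜ[k] b = (a ⊗ₜ[k] (1 : B)) * ((1 : B) ⊗ₜ[k] b) := by
        rw [Algebra.TensorProduct.tmul_mul_tmul, one_mul, mul_one]
      rw [e1, map_mul]
      rfl
  have h3 := hzt u
  rw [hz, hw, map_one] at h3
  exact zero_ne_one h3

end Pool.Agent.Lib.H33K
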