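import Pool.Agent.Lib.H33S.Rack

/-!
# Chunk K5: the component of the base point is a subrack

`Q` rack on `Spec A`, `e : A` with `Q.ε e = 1`, `B = A ⧸ (1 - e)`, `π : A → B`, `εB : B → k` the induced point.
If every idempotent `u` of `B ⊗ B` with `pair εB εB u = 1` is `1`, then `nabla` and `nablaInv` descend to `B`.
-/

namespace Pool.Agent.Lib.H33K

open scoped TensorProduct
open Pool.Agent.Lib.H33S

universe u

variable {k A : Type u} [Field k] [CommRing A] [Algebra k A]

/-- The quotient ring. -/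
abbrev QB (e : A) : Type u := A ⧸ Ideal.span {1 - e}

/-- The projection. -/
noncomputable def piB (k : Type u) [Field k] [Algebra k A] (e : A) : A →ₐ[k] QB e :=
  Ideal.Quotient.mkₐ k (Ideal.span {1 - e})

theorem piB_surjective (e : A) : Function.Surjective (piB k e) :=
  Ideal.Quotient.mkₐ_surjective k _

/-- Homomorphisms out of the quotient ring. -/
noncomputable def liftB {R : Type u} [CommRing R] [Algebra k R] {e : A} (x : A →ₐ[k] R)
    (h : x e = 1) : QB e →ₐ[k] R :=
  Ideal.Quotient.liftₐ (Ideal.span {1 - e}) x (by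
    intro a ha
    obtain ⟨b, rfl⟩ := Ideal.mem_span_singleton'.1 ha
    rw [map_mul, map_sub, map_one, h, sub_self, mul_zero])

theorem liftB_comp {R : Type u} [CommRing R] [Algebra k R] {e : A} (x : A →ₐ[k] R)
    (h : x e = 1) : (liftB x h).comp (piB k e) = x := by
  apply AlgHom.ext
  intro a
  rfl

theorem comp_piB_e {R : Type u} [CommRing R] [Algebra k R] {e : A} (x : QB e →ₐ[k] R) :
    x.comp (piB k e) e = 1 := by
  have h : piB k e (1 - e) = 0 := Ideal.Quotient.eq_zero_iff_mem.2 (Ideal.mem_span_singleton_self _)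
  rw [map_sub, map_one, sub_eq_zero] at h
  rw [AlgHom.comp_apply, ← h, map_one]

theorem ext_B {R : Type u} [CommRing R] [Algebra k R] {e : A} {x y : QB e →ₐ[k] R}
    (h : x.comp (piB k e) = y.comp (piB k e)) : x = y := by
  apply AlgHom.ext
  intro b
  obtain ⟨a, rfl⟩ := piB_surjective (k := k) e b
  exact DFunLike.congr_fun h a

variable (Q : AffineRack k A) {e : A} (he : IsIdempotentElem e) (h1 : Q.ε e = 1)
  (hp : ∀ u : QB e ⊗[k] QB e, IsIdempotentElem u → pair (liftB Q.ε h1) (liftB Q.ε h1) u = 1 → u = 1)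

/-- The map `A → B ⊗ B`. -/
noncomputable def preN (m : A →ₐ[k] A ⊗[k] A) (e : A) : A →ₐ[k] QB e ⊗[k] QB e :=
  (Algebra.TensorProduct.map (piB k e) (piB k e)).comp m

theorem pair_preN {R : Type u} [CommRing R] [Algebra k R] (m : A →ₐ[k] A ⊗[k] A)
    (x y : QB e →ₐ[k] R) :
    (pair x y).comp (preN m e) = op m (x.comp (piB k e)) (y.comp (piB k e)) := by
  rw [op, preN, ← AlgHom.comp_assoc]
  congr 1
  apply Algebra.TensorProduct.ext'
  intro a b
  simp [pair]

include he hp in
theorem preN_e (m : A →ₐ[k] A ⊗[k] A) (hm : op m Q.ε Q.ε = Q.ε) : preN m e e = 1 := by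
  apply hp
  · exact he.map (preN m e)
  · have h2 : (pair (liftB Q.ε h1) (liftB Q.ε h1)).comp (preN m e) = Q.ε := by
      rw [pair_preN, liftB_comp, hm]
    exact (DFunLike.congr_fun h2 e).trans h1

theorem basePt_self : basePt k Q.ε = Q.ε := by
  apply AlgHom.ext
  intro a
  rfl

theorem op_nabla_base : op Q.nabla Q.ε Q.ε = Q.ε := by
  have h := Q.base_op k Q.ε
  rwa [basePt_self] at h

theorem op_nablaInv_base : op Q.nablaInv Q.ε Q.ε = Q.ε := by
  have h := Q.inv_op k Q.ε Q.ε
  rwa [op_nabla_base] at h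

/-- The descended `nabla`. -/
noncomputable def nabB : QB e →ₐ[k] QB e ⊗[k] QB e :=
  liftB (preN Q.nabla e) (preN_e Q he h1 hp Q.nabla (op_nabla_base Q))

/-- The descended `nablaInv`. -/
noncomputable def nabInvB : QB e →ₐ[k] QB e ⊗[k] QB e :=
  liftB (preN Q.nablaInv e) (preN_e Q he h1 hp Q.nablaInv (op_nablaInv_base Q))

theorem op_nabB {R : Type u} [CommRing R] [Algebra k R] (x y : QB e →ₐ[k] R) :
    (op (nabB Q he h1 hp) x y).comp (piB k e) =
      op Q.nabla (x.comp (piB k e)) (y.comp (piB k e)) := by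
  rw [← pair_preN, op, AlgHom.comp_assoc, nabB, liftB_comp]

theorem op_nabInvB {R : Type u} [CommRing R] [Algebra k R] (x y : QB e →ₐ[k] R) :
    (op (nabInvB Q he h1 hp) x y).comp (piB k e) =
      op Q.nablaInv (x.comp (piB k e)) (y.comp (piB k e)) := by
  rw [← pair_preN, op, AlgHom.comp_assoc, nabInvB, liftB_comp]

theorem basePt_comp {R : Type u} [CommRing R] [Algebra k R] :
    (basePt R (liftB Q.ε h1)).comp (piB k e) = basePt R Q.ε := by
  rw [basePt, AlgHom.comp_assoc, liftB_comp, basePt]

/-- The component of the base point. -/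
noncomputable def subRack : AffineRack k (QB e) where
  ε := liftB Q.ε h1
  nabla := nabB Q he h1 hp
  nablaInv := nabInvB Q he h1 hp
  inv_op := by
    intro R _ _ x y
    apply ext_B
    rw [op_nabInvB, op_nabB, Q.inv_op]
  op_inv := by
    intro R _ _ x y
    apply ext_B
    rw [op_nabB, op_nabInvB, Q.op_inv]
  op_distrib := by
    intro R _ _ x y z
    apply ext_B
    simp only [op_nabB]
    exact Q.op_distrib R _ _ _
  inv_distrib := by
    intro R _ _ x y z
    apply ext_B
    simp only [op_nabInvB]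
    exact Q.inv_distrib R _ _ _
  base_op := by
    intro R _ _ x
    apply ext_B
    rw [op_nabB, basePt_comp, Q.base_op]
  op_base := by
    intro R _ _ x
    apply ext_B
    rw [op_nabB, basePt_comp, Q.op_base]

end Pool.Agent.Lib.H33K
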