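import Pool.Agent.Lib.H33K.K5

/-!
# Chunk K7 (M): the Leibniz algebra of the component

A tangent vector `D` of `Q` kills `1 - e` times anything: `D (e * e) = D e` gives `D e = 2 D e`, `D e = 0`, so `D ((1 - e) * a) =
D (1 - e) * ε a + ε (1 - e) * D a = 0` (`D 1 = 0`: `AffineRack.tangent_one`). So `D` factors through `π = piB k e`
(`Submodule.liftQ`/`Ideal.Quotient...` on the underlying modules: `(Ideal.span {1 - e}).restrictScalars k`), and `E ↦ E ∘ π` is a linear
equivalence `tangent (subRack ..).ε ≃ tangent Q.ε` (injective because `π` is surjective). It respects brackets: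
`bracketFun (nabB ..) D E ∘ π = bracketFun Q.nabla (D ∘ π) (E ∘ π)` because `nabB ∘ π = (π ⊗ π) ∘ nabla` (`liftB_comp`) and
`(D ⊗ E) ∘ (π ⊗ π) = (D ∘ π) ⊗ (E ∘ π)` (`TensorProduct.induction_on`). Take the inverse equivalence.
-/

namespace Pool.Agent.Lib.H33K

open scoped TensorProduct
open Pool.Agent.Lib.H33S

universe u

variable {k A : Type u} [Field k] [CommRing A] [Algebra k A]

theorem k7_e {ε : A →ₐ[k] k} {e : A} (he : IsIdempotentElem e) (h1 : ε e = 1) {D : A →ₗ[k] k}
    (hD : D ∈ AffineRack.tangent ε) (a : A) : D ((1 - e) * a) = 0 := by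
  have h2 := hD e e
  rw [he.eq, h1, mul_one, one_mul] at h2
  have h3 : D e = 0 := by
    have := h2
    simpa using this
  have h4 : D 1 = 0 := by
    have h := hD 1 1
    simp only [mul_one, map_one, one_mul] at h
    simpa using h
  rw [hD (1 - e) a, map_sub, h3, h4, map_sub, map_one, h1]
  ring

theorem k7_lift {ε : A →ₐ[k] k} {e : A} (he : IsIdempotentElem e) (h1 : ε e = 1) {D : A →ₗ[k] k}
    (hD : D ∈ AffineRack.tangent ε) :
    ∃ D' ∈ AffineRack.tangent (liftB ε h1), D' ∘ₗ (piB k e).toLinearMap = D := by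
  let D' : QB e →ₗ[k] k :=
    ((Ideal.span {1 - e}).restrictScalars k).liftQ D (by
      intro a ha
      obtain ⟨b, rfl⟩ := Ideal.mem_span_singleton'.1 (show a ∈ Ideal.span {1 - e} from ha)
      rw [LinearMap.mem_ker, mul_comm]
      exact k7_e he h1 hD b)
  have h2 : ∀ a : A, D' (piB k e a) = D a := fun a => rfl
  have h3 : ∀ a : A, liftB ε h1 (piB k e a) = ε a := fun a => rfl
  refine ⟨D', ?_, LinearMap.ext h2⟩
  intro f g
  obtain ⟨a, rfl⟩ := piB_surjective (k := k) e f
  obtain ⟨b, rfl⟩ := piB_surjective (k := k) e g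
  rw [← map_mul, h2, h2, h2, h3, h3]
  exact hD a b

theorem k7_comp {ε : A →ₐ[k] k} {e : A} (h1 : ε e = 1) {D : QB e →ₗ[k] k}
    (hD : D ∈ AffineRack.tangent (liftB ε h1)) :
    D ∘ₗ (piB k e).toLinearMap ∈ AffineRack.tangent ε := by
  intro a b
  change D (piB k e (a * b)) = D (piB k e a) * ε b + ε a * D (piB k e b)
  rw [map_mul, hD]
  rfl

theorem k7_bracket (Q : AffineRack k A) {e : A} (he : IsIdempotentElem e) (h1 : Q.ε e = 1)
    (hp : ∀ u : QB e ⊗[k] QB e, IsIdempotentElem u → pair (liftB Q.ε h1) (liftB Q.ε h1) u = 1 → u = 1)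
    (D E : QB e →ₗ[k] k) (a : A) :
    AffineRack.bracketFun (nabB Q he h1 hp) D E (piB k e a) =
      AffineRack.bracketFun Q.nabla (D ∘ₗ (piB k e).toLinearMap) (E ∘ₗ (piB k e).toLinearMap) a := by
  have h2 : nabB Q he h1 hp (piB k e a) =
      Algebra.TensorProduct.map (piB k e) (piB k e) (Q.nabla a) := rfl
  simp only [AffineRack.bracketFun, LinearMap.comp_apply, AlgHom.toLinearMap_apply]
  rw [h2]
  have h3 : ∀ t : A ⊗[k] A, LinearMap.mul' k k (TensorProduct.map D E
      (Algebra.TensorProduct.map (piB k e) (piB k e) t)) =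
      LinearMap.mul' k k (TensorProduct.map (D ∘ₗ (piB k e).toLinearMap)
        (E ∘ₗ (piB k e).toLinearMap) t) := by
    intro t
    induction t using TensorProduct.induction_on with
    | zero => simp
    | add x y hx hy => simp only [map_add, hx, hy]
    | tmul x y => rfl
  exact h3 _

/-- Restriction of tangent vectors. -/
noncomputable def k7_map (Q : AffineRack k A) {e : A} (he : IsIdempotentElem e) (h1 : Q.ε e = 1)
    (hp : ∀ u : QB e ⊗[k] QB e, IsIdempotentElem u → pair (liftB Q.ε h1) (liftB Q.ε h1) u = 1 → u = 1) :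
    AffineRack.tangent (subRack Q he h1 hp).ε →ₗ[k] AffineRack.tangent Q.ε where
  toFun D := ⟨D.1 ∘ₗ (piB k e).toLinearMap, k7_comp h1 D.2⟩
  map_add' := fun _ _ => rfl
  map_smul' := fun _ _ => rfl

theorem k7_bijective (Q : AffineRack k A) {e : A} (he : IsIdempotentElem e) (h1 : Q.ε e = 1)
    (hp : ∀ u : QB e ⊗[k] QB e, IsIdempotentElem u → pair (liftB Q.ε h1) (liftB Q.ε h1) u = 1 → u = 1) :
    Function.Bijective (k7_map Q he h1 hp) := by
  constructor
  · intro D E h
    apply Subtype.ext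
    apply LinearMap.ext
    intro b
    obtain ⟨a, rfl⟩ := piB_surjective (k := k) e b
    exact LinearMap.congr_fun (congrArg Subtype.val h) a
  · intro D
    obtain ⟨D', hD', h⟩ := k7_lift he h1 D.2
    exact ⟨⟨D', hD'⟩, Subtype.ext h⟩

theorem subRack_iso (Q : AffineRack k A) {e : A} (he : IsIdempotentElem e) (h1 : Q.ε e = 1)
    (hp : ∀ u : QB e ⊗[k] QB e, IsIdempotentElem u → pair (liftB Q.ε h1) (liftB Q.ε h1) u = 1 → u = 1) :
    ∃ φ : AffineRack.tangent Q.ε ≃ₗ[k] AffineRack.tangent (subRack Q he h1 hp).ε,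
      ∀ x y, φ (Q.leibnizAlgebra.bracket x y) =
        (subRack Q he h1 hp).leibnizAlgebra.bracket (φ x) (φ y) := by
  refine ⟨(LinearEquiv.ofBijective (k7_map Q he h1 hp) (k7_bijective Q he h1 hp)).symm, ?_⟩
  intro x y
  rw [LinearEquiv.symm_apply_eq]
  have hx := (LinearEquiv.ofBijective (k7_map Q he h1 hp) (k7_bijective Q he h1 hp)).apply_symm_apply x
  have hy := (LinearEquiv.ofBijective (k7_map Q he h1 hp) (k7_bijective Q he h1 hp)).apply_symm_apply y
  conv_lhs => rw [← hx, ← hy]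
  apply Subtype.ext
  apply LinearMap.ext
  intro a
  exact (k7_bracket Q he h1 hp _ _ a).symm

end Pool.Agent.Lib.H33K
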