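import Pool.Agent.Lib.H33S.Rack

/-!
# Chunk K8 (S/M): the quotient by an idempotent

`A ⧸ (1 - e)` is the localization of `A` away from `e` (`IsLocalization.away_of_isIdempotentElem` and friends, in
`Mathlib.RingTheory.Localization.Away...`/`Idempotents`), so it is etale over `A` (`Algebra.FormallyEtale.of_isLocalization`, finite presentation:
`IsLocalization.Away.finitePresentation`, or `Algebra.FinitePresentation.quotient` as `(1 - e)` is finitely generated), and smooth over `k`
(`Algebra.Smooth.comp`).
`connected`: `PrimeSpectrum` of a ring with exactly the idempotents `0 ≠ 1` is connected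
(`PrimeSpectrum.isIdempotentElemEquivClopens`, `PrimeSpectrum.connectedSpace_iff`-like; search for `IsIdempotentElem` in
`Mathlib/RingTheory/Spectrum/Prime/`).
-/

namespace Pool.Agent.Lib.H33K

universe u

theorem quot_smooth {k A : Type u} [Field k] [CommRing A] [Algebra k A] [Algebra.Smooth k A]
    {e : A} (he : IsIdempotentElem e) : Algebra.Smooth k (A ⧸ Ideal.span {1 - e}) := by
  have h1 : IsLocalization.Away e (A ⧸ Ideal.span {1 - e}) :=
    IsLocalization.Away.quotient_of_isIdempotentElem he
  have h2 : Algebra.Smooth A (A ⧸ Ideal.span {1 - e}) := Algebra.Smooth.of_isLocalization_Away e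
  exact Algebra.Smooth.comp k A (A ⧸ Ideal.span {1 - e})

theorem connected_of_idem {B : Type u} [CommRing B] [Nontrivial B]
    (hB : ∀ b : B, IsIdempotentElem b → b = 0 ∨ b = 1) : ConnectedSpace (PrimeSpectrum B) := by
  have h1 : PreconnectedSpace (PrimeSpectrum B) := by
    rw [preconnectedSpace_iff_clopen]
    intro s hs
    have h2 := PrimeSpectrum.isIdempotentElemEquivClopens.apply_symm_apply
      (⟨s, hs⟩ : TopologicalSpace.Clopens (PrimeSpectrum B))
    have h3 : s = ((PrimeSpectrum.isIdempotentElemEquivClopens
      (PrimeSpectrum.isIdempotentElemEquivClopens.symm ⟨s, hs⟩) :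
      TopologicalSpace.Clopens (PrimeSpectrum B)) : Set (PrimeSpectrum B)) := by
      rw [h2]
      rfl
    rw [PrimeSpectrum.coe_isIdempotentElemEquivClopens_apply] at h3
    rcases hB _ (PrimeSpectrum.isIdempotentElemEquivClopens.symm
      (⟨s, hs⟩ : TopologicalSpace.Clopens (PrimeSpectrum B))).2 with h4 | h4
    · left
      rw [h3, h4, PrimeSpectrum.basicOpen_zero]
      rfl
    · right
      rw [h3, h4, PrimeSpectrum.basicOpen_one]
      rfl
  exact { toNonempty := inferInstance }

end Pool.Agent.Lib.H33K
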