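import Pool.Agent.Lib.H33K.K1
import Pool.Agent.Lib.H33K.K4
import Pool.Agent.Lib.H33K.K7
import Pool.Agent.Lib.H33K.K8
import Pool.Agent.Lib.H33S.Main

/-!
# Smooth connected racks
-/

namespace Pool.Agent.Lib.H33K

open scoped TensorProduct
open Pool.Agent.Lib.H33S

universe u v

/-- Over a field of characteristic `0`, every finite-dimensional Leibniz algebra is the Leibniz
algebra of a smooth connected affine algebraic rack. -/
theorem exists_smooth_connected (k : Type u) [Field k] [CharZero k] (q : Type v) [AddCommGroup q]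
    [Module k q] [FiniteDimensional k q] (L : LeibnizAlgebra k q) :
    ∃ (A : Type u) (_ : CommRing A) (_ : Algebra k A), Algebra.Smooth k A ∧
      ConnectedSpace (PrimeSpectrum A) ∧ L.AlgebraicWith A := by
  obtain ⟨A, h1, h2, h3, Q, φ, hφ⟩ := exists_smooth_rack k q L
  have hft : Algebra.FiniteType k A := inferInstance
  have hN : IsNoetherianRing A := Algebra.FiniteType.isNoetherianRing k A
  obtain ⟨e, he, he1, hmin⟩ := exists_idem Q.ε
  have hB : ∀ b : QB e, IsIdempotentElem b → b = 0 ∨ b = 1 := quot_idem he hmin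
  have hp : ∀ u : QB e ⊗[k] QB e, IsIdempotentElem u →
      pair (liftB Q.ε he1) (liftB Q.ε he1) u = 1 → u = 1 :=
    fun u hu h => idem_prod hB (liftB Q.ε he1) u hu h
  obtain ⟨ψ, hψ⟩ := subRack_iso Q he he1 hp
  have hs : Algebra.Smooth k (QB e) := quot_smooth he
  have hn : Nontrivial (QB e) := (liftB Q.ε he1).toRingHom.domain_nontrivial
  refine ⟨QB e, inferInstance, inferInstance, hs, connected_of_idem hB, inferInstance,
    subRack Q he he1 hp, φ.trans ψ, ?_⟩
  intro x y
  rw [LinearEquiv.trans_apply, hφ, hψ]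
  rfl

end Pool.Agent.Lib.H33K
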