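import Pool.Agent.Lib.H33S.Rack

/-!
# Chunk W1 (M): an algebra with a derivation in characteristic `p`

`P = k[X_0, X_1] / I`, `I = (X_0^p, X_1^p)`, `δ = ∂_0 + X_0 ∂_1`, `u = X_0`, `v = X_1`, `η` = value at the origin.
* `δ' = MvPolynomial.mkDerivation k ![1, X 0] : Derivation k (MvPolynomial (Fin 2) k) _` maps `I` into `I`: `δ' (X_i ^ p) = p X_i^(p-1) .. = 0`
  (`Derivation.leibniz_pow`, `CharP.cast_eq_zero`); for an element of `I` use `Submodule.span_induction` and the Leibniz rule. It induces
  `δ : Derivation k P P` (`Derivation.mk'` of the linear map `Submodule.mapQ ..`, or `Derivation.liftOfSurjective` if it exists, or define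
  the map by `Ideal.Quotient` and `Quotient.inductionOn'`).
* `Module.Finite k P`: `P` is of finite type and integral over `k` (generated by `u`, `v` with `u^p = v^p = 0`):
  `Algebra.IsIntegral.finite`; `Algebra.adjoin` of integral elements (`Algebra.IsIntegral` from `integralClosure`), or
  `FiniteDimensional` by `Module.Finite.of_surjective` from `(Fin p × Fin p → k)`.
* `η`: `Ideal.Quotient.liftₐ I (MvPolynomial.aeval 0)`.
-/

namespace Pool.Agent.Lib.H33K

universe u

/-- The data used for the counterexample in characteristic `p`. -/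
structure PData (k : Type u) [Field k] (p : ℕ) where
  /-- the algebra -/
  P : Type u
  [ring : CommRing P]
  [alg : Algebra k P]
  fin : Module.Finite k P
  /-- the derivation -/
  δ : Derivation k P P
  /-- the augmentation -/
  η : P →ₐ[k] k
  /-- the nilpotent element -/
  u : P
  /-- its primitive -/
  v : P
  δv : δ v = u
  δu : δ u = 1
  u_pow : u ^ p = 0
  ηu : η u = 0

attribute [instance] PData.ring PData.alg

open MvPolynomial in
theorem w1_der_mem (k : Type u) [Field k] (p : ℕ) [CharP k p]
    (d : Derivation k (MvPolynomial (Fin 2) k) (MvPolynomial (Fin 2) k)) (x : MvPolynomial (Fin 2) k)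
    (hx : x ∈ Ideal.span ({X 0 ^ p, X 1 ^ p} : Set (MvPolynomial (Fin 2) k))) :
    d x ∈ Ideal.span ({X 0 ^ p, X 1 ^ p} : Set (MvPolynomial (Fin 2) k)) := by
  have h0 : ((p : ℕ) : MvPolynomial (Fin 2) k) = 0 := by
    have : ((p : ℕ) : MvPolynomial (Fin 2) k) = C ((p : ℕ) : k) := by simp
    rw [this, CharP.cast_eq_zero, map_zero]
  refine Submodule.span_induction (p := fun x _ => d x ∈ Ideal.span
    ({X 0 ^ p, X 1 ^ p} : Set (MvPolynomial (Fin 2) k))) ?_ ?_ ?_ ?_ hx
  · intro y hy
    have : ∃ i : Fin 2, y = X i ^ p := by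
      rcases hy with rfl | rfl
      · exact ⟨0, rfl⟩
      · exact ⟨1, rfl⟩
    obtain ⟨i, rfl⟩ := this
    rw [Derivation.leibniz_pow, nsmul_eq_mul, h0, zero_mul]
    exact Submodule.zero_mem _
  · rw [map_zero]
    exact Submodule.zero_mem _
  · intro a b _ _ ha hb
    rw [map_add]
    exact Submodule.add_mem _ ha hb
  · intro a y hy hdy
    rw [smul_eq_mul, Derivation.leibniz, smul_eq_mul, smul_eq_mul]
    exact Ideal.add_mem _ (Ideal.mul_mem_left _ _ hdy) (Ideal.mul_mem_right _ _ hy)

theorem exists_pdata (k : Type u) [Field k] (p : ℕ) (hp : p.Prime) [CharP k p] :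
    Nonempty (PData k p) := by
  open MvPolynomial in
  set I := Ideal.span ({X 0 ^ p, X 1 ^ p} : Set (MvPolynomial (Fin 2) k)) with hI
  have hX0 : (X 0 : MvPolynomial (Fin 2) k) ^ p ∈ I := Ideal.subset_span (Set.mem_insert _ _)
  have hX1 : (X 1 : MvPolynomial (Fin 2) k) ^ p ∈ I :=
    Ideal.subset_span (Set.mem_insert_of_mem _ (Set.mem_singleton _))
  set f := Ideal.Quotient.mkₐ k I with hf
  have hfs : Function.Surjective f := Ideal.Quotient.mkₐ_surjective k I
  set d : Derivation k (MvPolynomial (Fin 2) k) (MvPolynomial (Fin 2) k) :=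
    mkDerivation k ![1, X 0] with hd
  have hd0 : d (X 0) = 1 := by simp [hd]
  have hd1 : d (X 1) = X 0 := by simp [hd]
  have hker : ∀ x, f x = 0 → f (d x) = 0 := by
    intro x hx
    have hx' : x ∈ I := Ideal.Quotient.eq_zero_iff_mem.1 hx
    exact Ideal.Quotient.eq_zero_iff_mem.2 (w1_der_mem k p d x hx')
  have hη : ∀ a ∈ I, (aeval (0 : Fin 2 → k) : MvPolynomial (Fin 2) k →ₐ[k] k) a = 0 := by
    intro a ha
    have h1 : I ≤ RingHom.ker (aeval (0 : Fin 2 → k) : MvPolynomial (Fin 2) k →ₐ[k] k) := by
      rw [hI, Ideal.span_le]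
      intro y hy
      rcases hy with rfl | rfl
      · simp [RingHom.mem_ker, hp.ne_zero]
      · simp [RingHom.mem_ker, hp.ne_zero]
    exact h1 ha
  have hint : Algebra.IsIntegral k (MvPolynomial (Fin 2) k ⧸ I) := by
    refine ⟨fun z => ?_⟩
    obtain ⟨x, rfl⟩ := hfs z
    induction x using MvPolynomial.induction_on with
    | C a =>
      have : f (C a) = algebraMap k _ a := by
        rw [← MvPolynomial.algebraMap_eq]
        exact f.commutes a
      rw [this]
      exact isIntegral_algebraMap
    | add a b ha hb =>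
      rw [map_add]
      exact ha.add hb
    | mul_X a i ha =>
      rw [map_mul]
      refine ha.mul (IsIntegral.of_pow hp.pos ?_)
      have : f (X i) ^ p = 0 := by
        rw [← map_pow]
        refine Ideal.Quotient.eq_zero_iff_mem.2 ?_
        fin_cases i
        · exact hX0
        · exact hX1
      rw [this]
      exact isIntegral_zero
  have hft : Algebra.FiniteType k (MvPolynomial (Fin 2) k ⧸ I) :=
    Algebra.FiniteType.of_surjective f hfs
  exact ⟨{
    P := MvPolynomial (Fin 2) k ⧸ I
    fin := Algebra.IsIntegral.finite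
    δ := Derivation.liftOfSurjective hfs hker
    η := Ideal.Quotient.liftₐ I (aeval (0 : Fin 2 → k)) hη
    u := f (X 0)
    v := f (X 1)
    δv := by rw [Derivation.liftOfSurjective_apply, hd1]
    δu := by rw [Derivation.liftOfSurjective_apply, hd0, map_one]
    u_pow := by
      rw [← map_pow]
      exact Ideal.Quotient.eq_zero_iff_mem.2 hX0
    ηu := by
      show Ideal.Quotient.liftₐ I (aeval (0 : Fin 2 → k)) hη (Ideal.Quotient.mk I (X 0)) = 0
      simp }⟩

end Pool.Agent.Lib.H33K
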