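import Pool.Agent.Lib.H33S.Rack

/-!
# Chunk W2 (S/M): the Lie algebra `k δ ⋉ P ⋉ P`

Bracket on `k × P × P`: `[(α, f, m), (β, g, n)] = (0, α δ g - β δ f, α δ n + f n - β δ m - g m)`. Bilinearity, the Leibniz identity
and `[x, x] = 0` are direct computations (`Prod.ext`, `simp`, `ring` after `smul_eq_mul`-like rewriting, `Derivation.leibniz`).
-/

namespace Pool.Agent.Lib.H33K

open Pool.Agent.Lib.H33S

universe u

variable {k P : Type u} [Field k] [CommRing P] [Algebra k P]

/-- The bracket. -/
def wbr (δ : Derivation k P P) (x y : k × P × P) : k × P × P :=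
  (0, x.1 • δ y.2.1 - y.1 • δ x.2.1,
    x.1 • δ y.2.2 + x.2.1 * y.2.2 - y.1 • δ x.2.2 - y.2.1 * x.2.2)

theorem wbr_self (δ : Derivation k P P) (x : k × P × P) : wbr δ x x = 0 := by
  refine Prod.ext rfl (Prod.ext ?_ ?_)
  · simp only [wbr, sub_self, Prod.snd_zero, Prod.fst_zero]
  · simp only [wbr, Prod.snd_zero]
    ring

theorem wbr_add_left (δ : Derivation k P P) (x x' y : k × P × P) :
    wbr δ (x + x') y = wbr δ x y + wbr δ x' y := by
  refine Prod.ext ?_ (Prod.ext ?_ ?_)
  · simp only [wbr, Prod.fst_add, add_zero]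
  · simp only [wbr, Prod.fst_add, Prod.snd_add, map_add, smul_add, add_smul]
    abel
  · simp only [wbr, Prod.fst_add, Prod.snd_add, map_add, smul_add, add_smul, add_mul, mul_add]
    abel

theorem wbr_add_right (δ : Derivation k P P) (x y y' : k × P × P) :
    wbr δ x (y + y') = wbr δ x y + wbr δ x y' := by
  refine Prod.ext ?_ (Prod.ext ?_ ?_)
  · simp only [wbr, Prod.fst_add, add_zero]
  · simp only [wbr, Prod.fst_add, Prod.snd_add, map_add, smul_add, add_smul]
    abel
  · simp only [wbr, Prod.fst_add, Prod.snd_add, map_add, smul_add, add_smul, add_mul, mul_add]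
    abel

theorem wbr_smul_left (δ : Derivation k P P) (a : k) (x y : k × P × P) :
    wbr δ (a • x) y = a • wbr δ x y := by
  refine Prod.ext ?_ (Prod.ext ?_ ?_)
  · simp only [wbr, Prod.smul_fst, smul_zero]
  · simp only [wbr, Prod.smul_fst, Prod.smul_snd, Derivation.map_smul, smul_sub, smul_eq_mul, mul_smul]
    rw [smul_comm y.1 a]
  · simp only [wbr, Prod.smul_fst, Prod.smul_snd, Derivation.map_smul, smul_sub, smul_add, smul_eq_mul,
      mul_smul, smul_mul_assoc, mul_smul_comm]
    rw [smul_comm y.1 a]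

theorem wbr_smul_right (δ : Derivation k P P) (a : k) (x y : k × P × P) :
    wbr δ x (a • y) = a • wbr δ x y := by
  refine Prod.ext ?_ (Prod.ext ?_ ?_)
  · simp only [wbr, Prod.smul_fst, smul_zero]
  · simp only [wbr, Prod.smul_fst, Prod.smul_snd, Derivation.map_smul, smul_sub, smul_eq_mul, mul_smul]
    rw [smul_comm x.1 a]
  · simp only [wbr, Prod.smul_fst, Prod.smul_snd, Derivation.map_smul, smul_sub, smul_add, smul_eq_mul,
      mul_smul, smul_mul_assoc, mul_smul_comm]
    rw [smul_comm x.1 a]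

theorem wbr_leibniz (δ : Derivation k P P) (x y z : k × P × P) :
    wbr δ x (wbr δ y z) = wbr δ (wbr δ x y) z + wbr δ y (wbr δ x z) := by
  refine Prod.ext ?_ (Prod.ext ?_ ?_)
  · simp only [wbr, Prod.fst_add, add_zero]
  · simp only [wbr, Prod.fst_add, Prod.snd_add, map_sub, Derivation.map_smul, zero_smul, sub_zero,
      zero_sub, smul_sub]
    rw [smul_comm x.1 y.1, smul_comm z.1 x.1, smul_comm z.1 y.1]
    abel
  · simp only [wbr, Prod.fst_add, Prod.snd_add, map_sub, map_add, Algebra.smul_def, Derivation.leibniz,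
      Algebra.algebraMap_self, RingHom.id_apply, Derivation.map_algebraMap, map_zero, mul_zero]
    ring

/-- The Lie algebra as a Leibniz algebra. -/
def wLie (δ : Derivation k P P) : LeibnizAlgebra k (k × P × P) where
  bracket := LinearMap.mk₂ k (wbr δ) (wbr_add_left δ) (wbr_smul_left δ) (wbr_add_right δ)
    (wbr_smul_right δ)
  leibniz := wbr_leibniz δ

end Pool.Agent.Lib.H33K
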