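import Pool.Agent.Lib.H33K.W3c

/-!
# Chunk W3 (S/M): smooth racks have higher derivations

Take `x` from `exists_arc`, `g n E = ⟨bracketFun Q.nabla (arcC x n) E, arc_mem ..⟩` (linear in `E`: as `AffineRack.bracket_add_right`), transport by
`φ : q ≃ tangent` (`L.Iso`): `G n z = φ.symm (g n (φ z))`.
-/

namespace Pool.Agent.Lib.H33K

open Pool.Agent.Lib.H33S

universe u

/-- The terms of the higher derivation. -/
noncomputable def w3G {k A : Type u} [Field k] [CommRing A] [Algebra k A] (Q : AffineRack k A)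
    (x : A →ₐ[k] PowerSeries k) (n : ℕ) :
    AffineRack.tangent Q.ε →ₗ[k] AffineRack.tangent Q.ε where
  toFun E := ⟨AffineRack.bracketFun Q.nabla (arcC x n) E.1, arc_mem Q x n E.2⟩
  map_add' := fun E F => Subtype.ext (by
    simp [AffineRack.bracketFun, TensorProduct.map_add_right, LinearMap.add_comp,
      LinearMap.comp_add])
  map_smul' := fun a E => Subtype.ext (by
    simp [AffineRack.bracketFun, TensorProduct.map_smul_right, LinearMap.smul_comp,
      LinearMap.comp_smul])

theorem w3G_mul {k A : Type u} [Field k] [CommRing A] [Algebra k A] (Q : AffineRack k A)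
    (x : A →ₐ[k] PowerSeries k) (n : ℕ) (E F : AffineRack.tangent Q.ε) :
    w3G Q x n (Q.bracket E F) =
      ∑ ij ∈ Finset.HasAntidiagonal.antidiagonal n, Q.bracket (w3G Q x ij.1 E) (w3G Q x ij.2 F) := by
  apply Subtype.ext
  rw [Submodule.coe_sum]
  exact arc_mul Q x n

theorem exists_higher {k A q : Type u} [Field k] [CommRing A] [Algebra k A]
    [Algebra.FormallySmooth k A] [AddCommGroup q] [Module k q] (L : LeibnizAlgebra k q)
    (Q : AffineRack k A) (h : L.Iso Q.leibnizAlgebra) (d : q) :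
    ∃ G : ℕ → q →ₗ[k] q, G 0 = LinearMap.id ∧ (∀ y, G 1 y = L.bracket d y) ∧
      ∀ n x y, G n (L.bracket x y) =
        ∑ ij ∈ Finset.HasAntidiagonal.antidiagonal n, L.bracket (G ij.1 x) (G ij.2 y) := by
  obtain ⟨φ, hφ⟩ := h
  obtain ⟨x, hx⟩ := exists_arc Q.ε (φ d).2
  refine ⟨fun n => φ.symm.toLinearMap ∘ₗ w3G Q x n ∘ₗ φ.toLinearMap, ?_, ?_, ?_⟩
  · apply LinearMap.ext
    intro y
    change φ.symm (w3G Q x 0 (φ y)) = y
    have e : w3G Q x 0 (φ y) = φ y := Subtype.ext (arc_zero Q x (fun f => (hx f).1) (φ y).1)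
    rw [e, LinearEquiv.symm_apply_apply]
  · intro y
    change φ.symm (w3G Q x 1 (φ y)) = L.bracket d y
    rw [LinearEquiv.symm_apply_eq, hφ]
    apply Subtype.ext
    have e : arcC x 1 = (φ d).1 := LinearMap.ext fun f => (hx f).2
    change AffineRack.bracketFun Q.nabla (arcC x 1) (φ y).1 = _
    rw [e]
    rfl
  · intro n y z
    change φ.symm (w3G Q x n (φ (L.bracket y z))) = ∑ ij ∈ Finset.HasAntidiagonal.antidiagonal n,
      L.bracket (φ.symm (w3G Q x ij.1 (φ y))) (φ.symm (w3G Q x ij.2 (φ z)))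
    rw [LinearEquiv.symm_apply_eq, hφ, map_sum]
    refine (w3G_mul Q x n (φ y) (φ z)).trans ?_
    apply Finset.sum_congr rfl
    intro ij _
    rw [hφ, LinearEquiv.apply_symm_apply, LinearEquiv.apply_symm_apply]
    rfl

end Pool.Agent.Lib.H33K
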