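import Mathlib

/-!
# Chunk W3a (M): `k⟦X⟧` is complete for the ideal `(X^2)`

`(X^2)^n = (X^(2n))`, membership: `PowerSeries.X_pow_dvd_iff` (all coefficients below `2n` vanish).
Hausdorff: an element in all `(X^(2n))` has all coefficients `0`. Precomplete: for a Cauchy sequence `f : ℕ → k⟦X⟧`
(`f m ≡ f n mod (X^2)^m` for `m ≤ n`) the limit is `PowerSeries.mk fun i => coeff i (f (i + 1))` (for `i < 2m`: `coeff i (f m) = coeff i (f (i+1))`, compare
both with `f (max m (i+1))`).
-/

namespace Pool.Agent.Lib.H33K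

theorem w3a_mem {k : Type*} [Field k] (n : ℕ) (z : PowerSeries k) :
    z ∈ (Ideal.span {(PowerSeries.X : PowerSeries k) ^ 2}) ^ n • (⊤ : Submodule (PowerSeries k) (PowerSeries k)) ↔
      ∀ i < 2 * n, PowerSeries.coeff i z = 0 := by
  have h1 : (Ideal.span {(PowerSeries.X : PowerSeries k) ^ 2}) ^ n •
      (⊤ : Submodule (PowerSeries k) (PowerSeries k)) =
      (Ideal.span {(PowerSeries.X : PowerSeries k) ^ (2 * n)} : Ideal (PowerSeries k)) := by
    rw [Ideal.span_singleton_pow, ← pow_mul, smul_eq_mul]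
    exact Ideal.mul_top _
  rw [h1, Ideal.mem_span_singleton, PowerSeries.X_pow_dvd_iff]

theorem adic_complete (k : Type*) [Field k] :
    IsAdicComplete (Ideal.span {(PowerSeries.X : PowerSeries k) ^ 2}) (PowerSeries k) where
  haus' := by
    intro z hz
    ext i
    have h1 := hz (i + 1)
    rw [SModEq.zero, w3a_mem] at h1
    rw [h1 i (by omega), map_zero]
  prec' := by
    intro f hf
    refine ⟨PowerSeries.mk fun i => PowerSeries.coeff i (f (i + 1)), ?_⟩
    intro n
    rw [SModEq.sub_mem, w3a_mem]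
    intro i hi
    rw [map_sub, PowerSeries.coeff_mk, sub_eq_zero]
    have key : ∀ a b : ℕ, a ≤ b → i < 2 * a →
        PowerSeries.coeff i (f a) = PowerSeries.coeff i (f b) := by
      intro a b hab hia
      have h1 := hf hab
      rw [SModEq.sub_mem, w3a_mem] at h1
      have h2 := h1 i hia
      rw [map_sub, sub_eq_zero] at h2
      exact h2
    rw [key n (max n (i + 1)) (le_max_left _ _) hi,
      key (i + 1) (max n (i + 1)) (le_max_right _ _) (by omega)]

end Pool.Agent.Lib.H33K
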