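import Pool.Agent.Lib.H33S.Rack
import Pool.Agent.Lib.H33K.W3a

/-!
# Chunk W3b (M): a tangent vector of a smooth scheme extends to an arc

The map `f ↦ C (ε f) + D f • X` modulo `(X^2)` is an algebra homomorphism `A →ₐ[k] k⟦X⟧ ⧸ (X^2)`
(`D (f g) = D f ε g + ε f D g`, `X^2 = 0`; `D 1 = 0`). Lift it by `Algebra.FormallySmooth.exists_mkₐ_comp_eq_of_isAdicComplete`
(file `Mathlib/RingTheory/Smooth/AdicCompletion.lean`; `adic_complete` as instance) to `x : A →ₐ[k] k⟦X⟧`. The coefficients `0` and `1` are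
determined modulo `(X^2)` (`PowerSeries.X_pow_dvd_iff`).
-/

namespace Pool.Agent.Lib.H33K

open Pool.Agent.Lib.H33S

universe u

/-- The first order arc. -/
noncomputable def w3bHom {k A : Type u} [Field k] [CommRing A] [Algebra k A]
    (ε : A →ₐ[k] k) {D : A →ₗ[k] k} (hD : D ∈ AffineRack.tangent ε) :
    A →ₐ[k] PowerSeries k ⧸ Ideal.span {(PowerSeries.X : PowerSeries k) ^ 2} :=
  AlgHom.ofLinearMap
    ((Ideal.Quotient.mkₐ k (Ideal.span {(PowerSeries.X : PowerSeries k) ^ 2})).toLinearMap ∘ₗ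
      ((Algebra.linearMap k (PowerSeries k)) ∘ₗ ε.toLinearMap +
        (LinearMap.toSpanSingleton k (PowerSeries k) PowerSeries.X) ∘ₗ D))
    (by
      have h := hD 1 1
      simp only [mul_one, map_one, one_mul] at h
      have h1 : D 1 = 0 := by simpa using h
      simp only [LinearMap.comp_apply, LinearMap.add_apply, AlgHom.toLinearMap_apply, map_one,
        Algebra.linearMap_apply, LinearMap.toSpanSingleton_apply, h1, zero_smul, add_zero])
    (by
      intro f g
      simp only [LinearMap.comp_apply, LinearMap.add_apply, AlgHom.toLinearMap_apply,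
        Algebra.linearMap_apply, LinearMap.toSpanSingleton_apply]
      rw [← map_mul, ← sub_eq_zero, ← map_sub]
      apply Ideal.Quotient.eq_zero_iff_mem.2
      rw [Ideal.mem_span_singleton]
      refine ⟨- algebraMap k (PowerSeries k) (D f * D g), ?_⟩
      rw [hD f g]
      simp only [map_mul, map_add, Algebra.smul_def]
      ring)

theorem w3bHom_apply {k A : Type u} [Field k] [CommRing A] [Algebra k A]
    (ε : A →ₐ[k] k) {D : A →ₗ[k] k} (hD : D ∈ AffineRack.tangent ε) (f : A) :
    w3bHom ε hD f = Ideal.Quotient.mkₐ k (Ideal.span {(PowerSeries.X : PowerSeries k) ^ 2})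
      (algebraMap k (PowerSeries k) (ε f) + D f • PowerSeries.X) := by
  simp only [w3bHom, AlgHom.ofLinearMap_apply, LinearMap.comp_apply, LinearMap.add_apply,
    AlgHom.toLinearMap_apply, Algebra.linearMap_apply, LinearMap.toSpanSingleton_apply]

theorem exists_arc {k A : Type u} [Field k] [CommRing A] [Algebra k A] [Algebra.FormallySmooth k A]
    (ε : A →ₐ[k] k) {D : A →ₗ[k] k} (hD : D ∈ AffineRack.tangent ε) :
    ∃ x : A →ₐ[k] PowerSeries k, ∀ f, PowerSeries.coeff 0 (x f) = ε f ∧
      PowerSeries.coeff 1 (x f) = D f := by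
  have hc : IsAdicComplete (Ideal.span {(PowerSeries.X : PowerSeries k) ^ 2}) (PowerSeries k) :=
    adic_complete k
  obtain ⟨x, hx⟩ := Algebra.FormallySmooth.exists_mkₐ_comp_eq_of_isAdicComplete (R := k) (A := A)
    (S := PowerSeries k) (I := Ideal.span {(PowerSeries.X : PowerSeries k) ^ 2}) (w3bHom ε hD)
  refine ⟨x, ?_⟩
  intro f
  have h1 := DFunLike.congr_fun hx f
  rw [w3bHom_apply, AlgHom.comp_apply, Ideal.Quotient.mkₐ_eq_mk, Ideal.Quotient.eq, Ideal.mem_span_singleton, PowerSeries.X_pow_dvd_iff] at h1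
  have h2 := h1 0 (by norm_num)
  have h3 := h1 1 (by norm_num)
  have e : algebraMap k (PowerSeries k) (ε f) = PowerSeries.C (ε f) := rfl
  rw [e, map_sub, sub_eq_zero, map_add, map_smul] at h2 h3
  constructor
  · rw [h2, PowerSeries.coeff_C, if_pos rfl, PowerSeries.coeff_zero_X, smul_zero, add_zero]
  · rw [h3, PowerSeries.coeff_C, if_neg one_ne_zero, PowerSeries.coeff_one_X, zero_add, smul_eq_mul,
      mul_one]

end Pool.Agent.Lib.H33K
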