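import Pool.Agent.Lib.H33K.W3b

/-!
# Chunk W3c (M/L): the higher derivation of an arc

`x : A →ₐ[k] k⟦X⟧` an arc through the base point, `x_n = coeff n ∘ x : A →ₗ[k] k`, `g_n E = bracketFun Q.nabla x_n E`.
`arc_mem`: `g_n E` is a derivation at `ε` if `E` is. As in `AffineRack.bracketFun_mem` (Rack.lean): for `a b : A ⊗ A`
`(x_n ⊗ E)(a b) = ∑_(i+j=n) ((x_i ⊗ E) a) ((x_j ⊗ ε) b) + ((x_i ⊗ ε) a) ((x_j ⊗ E) b)` (`coeff_mul`, `hE`), and
`(x_j ⊗ ε) (∇ f) = ε f` for `j = 0` and `0` for `j > 0`: `x ▷ e = e` (`Q.op_base (PowerSeries k) x`; compare coefficients; as in `fun_eps`).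
`arc_zero`: `x_0 = ε`, `AffineRack.eps_fun`. `arc_one`: `x_1 = D`.
`arc_mul`: as `AffineRack.bracketFun_leibniz`: apply `T_n = x_n ⊗ (E ⊗ F)` to `Q.op_distrib` for the three tautological points of
`A ⊗ (A ⊗ A)`: the left side is `g_n [E, F]`; on the right `(x ▷ y)(a) (x ▷ z)(b)` gives `∑_(i+j=n) (g_i E)(a) (g_j F)(b)` because `x` is multiplicative
(`PowerSeries.coeff_mul`), summed over `∇ f = ∑ a ⊗ b`.
-/

namespace Pool.Agent.Lib.H33K

open Pool.Agent.Lib.H33S
open scoped TensorProduct

universe u

variable {k A : Type u} [Field k] [CommRing A] [Algebra k A]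

/-- The coefficient `x_n` of an arc. -/
noncomputable def arcC (x : A →ₐ[k] PowerSeries k) (n : ℕ) : A →ₗ[k] k :=
  (PowerSeries.coeff n).restrictScalars k ∘ₗ x.toLinearMap

theorem arcC_apply (x : A →ₐ[k] PowerSeries k) (n : ℕ) (f : A) :
    arcC x n f = PowerSeries.coeff n (x f) := rfl

theorem arcC_mul (x : A →ₐ[k] PowerSeries k) (n : ℕ) (f g : A) :
    arcC x n (f * g) = ∑ ij ∈ Finset.HasAntidiagonal.antidiagonal n, arcC x ij.1 f * arcC x ij.2 g := by
  rw [arcC_apply, map_mul, PowerSeries.coeff_mul]
  rfl

theorem arc_eps (Q : AffineRack k A) (x : A →ₐ[k] PowerSeries k) (n : ℕ) (f : A) :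
    LinearMap.mul' k k (TensorProduct.map (arcC x n) Q.ε.toLinearMap (Q.nabla f)) =
      if n = 0 then Q.ε f else 0 := by
  have h := congrArg (PowerSeries.coeff n) (DFunLike.congr_fun (Q.op_base (PowerSeries k) x) f)
  have h2 : ∀ t : A ⊗[k] A, PowerSeries.coeff n (pair x (basePt (PowerSeries k) Q.ε) t) =
      LinearMap.mul' k k (TensorProduct.map (arcC x n) Q.ε.toLinearMap t) := by
    intro t
    induction t using TensorProduct.induction_on with
    | zero => simp
    | add a b ha hb => simp only [map_add, ha, hb]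
    | tmul a b =>
      have e1 : pair x (basePt (PowerSeries k) Q.ε) (a ⊗ₜ[k] b) = Q.ε b • x a := by
        simp only [pair, Algebra.TensorProduct.lift_tmul, basePt, AlgHom.comp_apply,
          Algebra.ofId_apply]
        rw [mul_comm, ← Algebra.smul_def]
      rw [e1, map_smul, TensorProduct.map_tmul, LinearMap.mul'_apply, arcC_apply, smul_eq_mul, mul_comm]
      rfl
  rw [op, AlgHom.comp_apply, h2] at h
  rw [h]
  have e2 : basePt (PowerSeries k) Q.ε f = PowerSeries.C (Q.ε f) := rfl
  rw [e2, PowerSeries.coeff_C]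

theorem arc_mem (Q : AffineRack k A) (x : A →ₐ[k] PowerSeries k) (n : ℕ) {E : A →ₗ[k] k}
    (hE : E ∈ AffineRack.tangent Q.ε) :
    AffineRack.bracketFun Q.nabla (arcC x n) E ∈ AffineRack.tangent Q.ε := by
  have key : ∀ a b : A ⊗[k] A,
      LinearMap.mul' k k (TensorProduct.map (arcC x n) E (a * b)) =
        ∑ ij ∈ Finset.HasAntidiagonal.antidiagonal n,
          (LinearMap.mul' k k (TensorProduct.map (arcC x ij.1) E a) *
            LinearMap.mul' k k (TensorProduct.map (arcC x ij.2) Q.ε.toLinearMap b) +
          LinearMap.mul' k k (TensorProduct.map (arcC x ij.1) Q.ε.toLinearMap a) *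
            LinearMap.mul' k k (TensorProduct.map (arcC x ij.2) E b)) := by
    intro a b
    induction a using TensorProduct.induction_on with
    | zero => simp
    | add a₁ a₂ h₁ h₂ =>
      simp only [add_mul, map_add, h₁, h₂, ← Finset.sum_add_distrib]
      exact Finset.sum_congr rfl fun _ _ => by ring
    | tmul f₁ f₂ =>
      induction b using TensorProduct.induction_on with
      | zero => simp
      | add b₁ b₂ h₁ h₂ =>
        simp only [mul_add, map_add, h₁, h₂, ← Finset.sum_add_distrib]
        exact Finset.sum_congr rfl fun _ _ => by ring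
      | tmul g₁ g₂ =>
        simp only [Algebra.TensorProduct.tmul_mul_tmul, TensorProduct.map_tmul,
          LinearMap.mul'_apply, AlgHom.toLinearMap_apply, hE f₂ g₂, arcC_mul, Finset.sum_mul]
        exact Finset.sum_congr rfl fun _ _ => by ring
  intro f g
  simp only [AffineRack.bracketFun, LinearMap.comp_apply, AlgHom.toLinearMap_apply, map_mul]
  rw [key, Finset.sum_add_distrib]
  simp only [arc_eps]
  congr 1
  · rw [Finset.sum_eq_single (n, 0)]
    · rw [if_pos rfl]
    · rintro ⟨i, j⟩ hij hne
      have hj : j ≠ 0 := by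
        rintro rfl
        rw [Finset.HasAntidiagonal.mem_antidiagonal] at hij
        exact hne (by rw [← hij]; rfl)
      rw [if_neg hj, mul_zero]
    · intro h
      exact absurd (Finset.HasAntidiagonal.mem_antidiagonal.2 (add_zero n)) h
  · rw [Finset.sum_eq_single (0, n)]
    · rw [if_pos rfl]
    · rintro ⟨i, j⟩ hij hne
      have hi : i ≠ 0 := by
        rintro rfl
        rw [Finset.HasAntidiagonal.mem_antidiagonal] at hij
        exact hne (by rw [← hij, zero_add])
      rw [if_neg hi, zero_mul]
    · intro h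
      exact absurd (Finset.HasAntidiagonal.mem_antidiagonal.2 (zero_add n)) h

theorem arc_zero (Q : AffineRack k A) (x : A →ₐ[k] PowerSeries k)
    (h0 : ∀ f, PowerSeries.coeff 0 (x f) = Q.ε f) (E : A →ₗ[k] k) :
    AffineRack.bracketFun Q.nabla (arcC x 0) E = E := by
  have e : arcC x 0 = Q.ε.toLinearMap := LinearMap.ext h0
  rw [e]
  exact LinearMap.ext fun f => AffineRack.eps_fun E f

theorem arc_mul (Q : AffineRack k A) (x : A →ₐ[k] PowerSeries k) (n : ℕ) {E F : A →ₗ[k] k} :
    AffineRack.bracketFun Q.nabla (arcC x n) (AffineRack.bracketFun Q.nabla E F) =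
      ∑ ij ∈ Finset.HasAntidiagonal.antidiagonal n, AffineRack.bracketFun Q.nabla
        (AffineRack.bracketFun Q.nabla (arcC x ij.1) E)
        (AffineRack.bracketFun Q.nabla (arcC x ij.2) F) := by
  -- the three tautological points of `Q` with values in `A ⊗ (A ⊗ A)`
  let pX : A →ₐ[k] A ⊗[k] (A ⊗[k] A) := Algebra.TensorProduct.includeLeft
  let pY : A →ₐ[k] A ⊗[k] (A ⊗[k] A) :=
    (Algebra.TensorProduct.includeRight).comp Algebra.TensorProduct.includeLeft
  let pZ : A →ₐ[k] A ⊗[k] (A ⊗[k] A) :=
    (Algebra.TensorProduct.includeRight).comp Algebra.TensorProduct.includeRight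
  let T : A ⊗[k] (A ⊗[k] A) →ₗ[k] k :=
    LinearMap.mul' k k ∘ₗ TensorProduct.map (arcC x n) (LinearMap.mul' k k ∘ₗ TensorProduct.map E F)
  apply LinearMap.ext
  intro f
  have h := congrArg T (DFunLike.congr_fun (Q.op_distrib _ pX pY pZ) f)
  have hL0 : ∀ t : A ⊗[k] A, pair pY pZ t = 1 ⊗ₜ[k] t := by
    intro t
    induction t using TensorProduct.induction_on with
    | zero => simp
    | add a b ha hb => simp only [map_add, ha, hb, TensorProduct.tmul_add]
    | tmul a b => simp [pair, pY, pZ]
  have hL : ∀ t : A ⊗[k] A, T (pair pX (op Q.nabla pY pZ) t) =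
      LinearMap.mul' k k (TensorProduct.map (arcC x n) (AffineRack.bracketFun Q.nabla E F) t) := by
    intro t
    induction t using TensorProduct.induction_on with
    | zero => simp
    | add a b ha hb => simp only [map_add, ha, hb]
    | tmul a b =>
      simp only [op, pair, Algebra.TensorProduct.lift_tmul, AlgHom.comp_apply]
      have := hL0 (Q.nabla b)
      simp only [pair] at this
      rw [this]
      simp [pX, T, AffineRack.bracketFun]
  have hR0 : ∀ s t : A ⊗[k] A, T (pair pX pY s * pair pX pZ t) =
      ∑ ij ∈ Finset.HasAntidiagonal.antidiagonal n,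
        LinearMap.mul' k k (TensorProduct.map (arcC x ij.1) E s) *
          LinearMap.mul' k k (TensorProduct.map (arcC x ij.2) F t) := by
    intro s t
    induction s using TensorProduct.induction_on with
    | zero => simp
    | add a₁ a₂ h₁ h₂ =>
      simp only [add_mul, map_add, h₁, h₂, ← Finset.sum_add_distrib]
    | tmul a b =>
      induction t using TensorProduct.induction_on with
      | zero => simp
      | add b₁ b₂ h₁ h₂ =>
        simp only [mul_add, map_add, h₁, h₂, ← Finset.sum_add_distrib]
      | tmul c d =>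
        simp only [pair, Algebra.TensorProduct.lift_tmul, pX, pY, pZ, T,
          Algebra.TensorProduct.includeLeft_apply, AlgHom.comp_apply,
          Algebra.TensorProduct.includeRight_apply, Algebra.TensorProduct.tmul_mul_tmul, mul_one,
          one_mul, LinearMap.comp_apply, TensorProduct.map_tmul, LinearMap.mul'_apply, arcC_mul,
          Finset.sum_mul]
        exact Finset.sum_congr rfl fun _ _ => by ring
  have hR : ∀ t : A ⊗[k] A,
      T (pair (op Q.nabla pX pY) (op Q.nabla pX pZ) t) =
      ∑ ij ∈ Finset.HasAntidiagonal.antidiagonal n,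
        LinearMap.mul' k k (TensorProduct.map (AffineRack.bracketFun Q.nabla (arcC x ij.1) E)
          (AffineRack.bracketFun Q.nabla (arcC x ij.2) F) t) := by
    intro t
    induction t using TensorProduct.induction_on with
    | zero => simp
    | add a b ha hb => simp only [map_add, ha, hb, ← Finset.sum_add_distrib]
    | tmul a b =>
      have h1 : pair (op Q.nabla pX pY) (op Q.nabla pX pZ) (a ⊗ₜ[k] b) =
          pair pX pY (Q.nabla a) * pair pX pZ (Q.nabla b) := by
        conv_lhs => rw [pair]
        rw [Algebra.TensorProduct.lift_tmul]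
        rfl
      rw [h1, hR0]
      simp only [AffineRack.bracketFun, TensorProduct.map_tmul, LinearMap.comp_apply,
        LinearMap.mul'_apply, AlgHom.toLinearMap_apply]
  rw [op_apply, op_apply, hL, hR] at h
  refine h.trans ?_
  simp only [LinearMap.sum_apply, AffineRack.bracketFun, LinearMap.comp_apply,
    AlgHom.toLinearMap_apply]

end Pool.Agent.Lib.H33K
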