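import Pool.Agent.Lib.H33K.W1
import Pool.Agent.Lib.H33K.W2

/-!
# Chunk W4 (M/L): the counterexample has no higher derivation

`T : PData k p`, `q = k × P × P`, `d = (1, 0, 0)`. Suppose `G` is a higher derivation of infinite length. For `z : q` put
`B z = mk fun n => (G n z).1 ∈ k⟦X⟧`, `F z = mk fun n => η (G n z).2.1`, `M z = mk fun n => η (G n z).2.2`, and with `δ`:
`F' z = mk fun n => η (δ (G n z).2.1)`, `M' z = mk fun n => η (δ (G n z).2.2)`, all in `k⟦X⟧`. From the multiplicativity and the formula for the bracket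
(`η` multiplicative, `PowerSeries.coeff_mul`):
`B [x,y] = 0`, `F [x,y] = B x * F' y - B y * F' x`, `M [x,y] = B x * M' y + F x * M y - B y * M' x - F y * M x`.
Let `a = (0, u, 0) = [d, (0, v, 0)]`, `c = (0, 0, 1)`. `B a = 0` (as `a` is a bracket). Put `f = F a`, `m = M a`, `b = B c`, `h = F c`, `n = M c`.
`[a, [a, ... [a, c]]]` (`p` times) `= (0, 0, u^p) = 0`. With `c_1 = [a, c]`: `B c_1 = 0`, `F c_1 = - b F' a`, `M c_1 = f n - b M' a - h m`;
`c_2 = [a, c_1]`: `B = 0`, `F c_2 = 0`, `M c_2 = f (f n - b M' a - h m) + b (F' a) m`; `c_(j+1) = [a, c_j]`: `F = 0`, `M c_(j+1) = f M c_j`.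
So `0 = M c_p = f^(p-2) * M c_2` (`p ≥ 2`). Coefficients: `f = X + O(X^2)` (`η u = 0`, `G 1 a = [d, a] = (0, δ u, 0) = (0, 1, 0)`),
`m = O(X^2)`, `b, h = O(X^2)`, `n = 1 + O(X^2)` (`δ 1 = 0`), `M' a = O(X^2)`. `k⟦X⟧` is a domain and `f ≠ 0`, so `M c_2 = 0`, but its coefficient of
`X^2` is `1` (`f * f * n` has coefficient `1`, the other terms are divisible by `X^4`, or `X^3`). Contradiction.
(Divisibility: write `f = X * f1`, `constantCoeff f1 = 1`, `b = X^2 * b1` etc. by `PowerSeries.X_pow_dvd_iff`, cancel `X^2`, take constant coefficients.)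
-/

namespace Pool.Agent.Lib.H33K

open Pool.Agent.Lib.H33S

universe u

theorem w4_wbr_a {k P : Type u} [Field k] [CommRing P] [Algebra k P] (δ : Derivation k P P)
    (u w : P) : wbr δ ((0, u, 0) : k × P × P) (0, 0, w) = (0, 0, u * w) := by
  simp [wbr]

theorem w4_wbr_d {k P : Type u} [Field k] [CommRing P] [Algebra k P] (δ : Derivation k P P)
    (z : k × P × P) : wbr δ ((1, 0, 0) : k × P × P) z = (0, δ z.2.1, δ z.2.2) := by
  simp [wbr]

/-- The final computation with power series. -/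
theorem w4_series {k : Type u} [Field k] {f n b h m m' d : PowerSeries k}
    (f0 : PowerSeries.coeff 0 f = 0) (f1 : PowerSeries.coeff 1 f = 1)
    (n0 : PowerSeries.coeff 0 n = 1) (b0 : PowerSeries.coeff 0 b = 0)
    (b1 : PowerSeries.coeff 1 b = 0) (h0 : PowerSeries.coeff 0 h = 0)
    (h1 : PowerSeries.coeff 1 h = 0) (m0 : PowerSeries.coeff 0 m = 0)
    (m1 : PowerSeries.coeff 1 m = 0) : f * (f * n - m' * b - m * h) + m * (d * b) ≠ 0 := by
  have two : ∀ z : PowerSeries k, PowerSeries.coeff 0 z = 0 → PowerSeries.coeff 1 z = 0 →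
      PowerSeries.X ^ 2 ∣ z := by
    intro z z0 z1
    rw [PowerSeries.X_pow_dvd_iff]
    intro i hi
    interval_cases i
    · exact z0
    · exact z1
  obtain ⟨b2, rfl⟩ := two b b0 b1
  obtain ⟨h2, rfl⟩ := two h h0 h1
  obtain ⟨m2, rfl⟩ := two m m0 m1
  have hf : PowerSeries.X ∣ f := by
    rw [PowerSeries.X_dvd_iff, ← PowerSeries.coeff_zero_eq_constantCoeff_apply]
    exact f0
  obtain ⟨f2, rfl⟩ := hf
  have hf2 : PowerSeries.coeff 0 f2 = 1 := by
    rw [← f1]
    exact (PowerSeries.coeff_succ_X_mul 0 f2).symm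
  intro hz
  have e : (PowerSeries.X * f2) * ((PowerSeries.X * f2) * n - m' * (PowerSeries.X ^ 2 * b2) -
      PowerSeries.X ^ 2 * m2 * (PowerSeries.X ^ 2 * h2)) +
      PowerSeries.X ^ 2 * m2 * (d * (PowerSeries.X ^ 2 * b2)) =
      PowerSeries.X ^ 2 * (f2 * f2 * n + PowerSeries.X * (- f2 * m' * b2 -
        PowerSeries.X ^ 2 * (f2 * m2 * h2) + PowerSeries.X * (m2 * d * b2))) := by ring
  rw [e] at hz
  rcases mul_eq_zero.1 hz with h3 | h3
  · exact PowerSeries.X_ne_zero (eq_zero_of_pow_eq_zero h3)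
  · have h4 := congrArg (PowerSeries.coeff 0) h3
    simp only [map_add, PowerSeries.coeff_zero_X_mul, add_zero, map_zero] at h4
    rw [PowerSeries.coeff_zero_eq_constantCoeff_apply, map_mul, map_mul,
      ← PowerSeries.coeff_zero_eq_constantCoeff_apply, ← PowerSeries.coeff_zero_eq_constantCoeff_apply,
      hf2, n0, mul_one, mul_one] at h4
    exact one_ne_zero h4

theorem no_higher {k : Type u} [Field k] {p : ℕ} (hp : p.Prime) [CharP k p] (T : PData k p) :
    ¬ ∃ G : ℕ → (k × T.P × T.P) →ₗ[k] (k × T.P × T.P), G 0 = LinearMap.id ∧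
      (∀ y, G 1 y = (wLie T.δ).bracket (1, 0, 0) y) ∧
      ∀ n x y, G n ((wLie T.δ).bracket x y) =
        ∑ ij ∈ Finset.HasAntidiagonal.antidiagonal n, (wLie T.δ).bracket (G ij.1 x) (G ij.2 y) := by
  rintro ⟨G, hG0, hG1, hGm⟩
  have hm : ∀ n x y, G n (wbr T.δ x y) =
      ∑ ij ∈ Finset.HasAntidiagonal.antidiagonal n, wbr T.δ (G ij.1 x) (G ij.2 y) := hGm
  have h1 : ∀ y, G 1 y = wbr T.δ (1, 0, 0) y := hG1
  have h0 : ∀ y, G 0 y = y := fun y => by rw [hG0]; rfl
  let B : (k × T.P × T.P) → PowerSeries k := fun z => PowerSeries.mk fun n => (G n z).1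
  let F : (k × T.P × T.P) → PowerSeries k := fun z => PowerSeries.mk fun n => T.η (G n z).2.1
  let M : (k × T.P × T.P) → PowerSeries k := fun z => PowerSeries.mk fun n => T.η (G n z).2.2
  let F' : (k × T.P × T.P) → PowerSeries k :=
    fun z => PowerSeries.mk fun n => T.η (T.δ (G n z).2.1)
  let M' : (k × T.P × T.P) → PowerSeries k :=
    fun z => PowerSeries.mk fun n => T.η (T.δ (G n z).2.2)
  have hB : ∀ x y, B (wbr T.δ x y) = 0 := by
    intro x y
    ext n
    simp only [B, PowerSeries.coeff_mk, hm, Prod.fst_sum, map_zero]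
    exact Finset.sum_eq_zero fun _ _ => rfl
  have hF : ∀ x y, F (wbr T.δ x y) = B x * F' y - F' x * B y := by
    intro x y
    ext n
    simp only [B, F, F', PowerSeries.coeff_mk, hm, Prod.fst_sum, Prod.snd_sum, map_sum, map_sub,
      PowerSeries.coeff_mul, ← Finset.sum_sub_distrib]
    apply Finset.sum_congr rfl
    intro ij _
    simp only [wbr, map_sub, map_smul, smul_eq_mul]
    ring
  have hM : ∀ x y, M (wbr T.δ x y) = B x * M' y + F x * M y - M' x * B y - M x * F y := by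
    intro x y
    ext n
    simp only [B, F, M, M', PowerSeries.coeff_mk, hm, Prod.snd_sum, map_sum, map_sub, map_add,
      PowerSeries.coeff_mul, ← Finset.sum_sub_distrib, ← Finset.sum_add_distrib]
    apply Finset.sum_congr rfl
    intro ij _
    simp only [wbr, map_sub, map_add, map_smul, map_mul, smul_eq_mul]
    ring
  -- the elements
  have ha : ((0, T.u, 0) : k × T.P × T.P) = wbr T.δ (1, 0, 0) (0, T.v, 0) := by
    rw [w4_wbr_d]
    simp only [T.δv, map_zero]
  have hBa : B (0, T.u, 0) = 0 := by rw [ha, hB]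
  have hc : ∀ j : ℕ, ((0, 0, T.u ^ (j + 1)) : k × T.P × T.P) =
      wbr T.δ (0, T.u, 0) (0, 0, T.u ^ j) := by
    intro j
    rw [w4_wbr_a, pow_succ, mul_comm]
  have hBc : ∀ j : ℕ, B (0, 0, T.u ^ (j + 1)) = 0 := by
    intro j
    rw [hc, hB]
  have hFc : ∀ j : ℕ, F (0, 0, T.u ^ (j + 2)) = 0 := by
    intro j
    rw [hc, hF, hBa, hBc, zero_mul, mul_zero, sub_zero]
  have hMc : ∀ j : ℕ, M (0, 0, T.u ^ (j + 2)) = F (0, T.u, 0) ^ j * M (0, 0, T.u ^ 2) := by
    intro j
    induction j with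
    | zero => rw [pow_zero, one_mul]
    | succ j ih =>
      have e1 : j + 1 + 2 = (j + 2) + 1 := by ring
      rw [e1, hc, hM, hBa, ih, hFc, hBc]
      ring
  have hM2 : M (0, 0, T.u ^ 2) = F (0, T.u, 0) * (F (0, T.u, 0) * M (0, 0, T.u ^ 0) -
      M' (0, T.u, 0) * B (0, 0, T.u ^ 0) - M (0, T.u, 0) * F (0, 0, T.u ^ 0)) +
      M (0, T.u, 0) * (F' (0, T.u, 0) * B (0, 0, T.u ^ 0)) := by
    rw [hc 1, hM, hBa, hBc 0, hc 0, hM, hF, hBa]
    ring
  have hMp : M (0, 0, T.u ^ p) = 0 := by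
    have e1 : ((0, 0, T.u ^ p) : k × T.P × T.P) = 0 := by
      rw [T.u_pow]
      rfl
    rw [e1]
    ext n
    simp only [M, PowerSeries.coeff_mk, map_zero, Prod.snd_zero]
  have hp2 : p = (p - 2) + 2 := (Nat.sub_add_cancel hp.two_le).symm
  have f0 : PowerSeries.coeff 0 (F (0, T.u, 0)) = 0 := by
    simp only [F, PowerSeries.coeff_mk, h0]
    exact T.ηu
  have f1 : PowerSeries.coeff 1 (F (0, T.u, 0)) = 1 := by
    simp only [F, PowerSeries.coeff_mk, h1, w4_wbr_d]
    rw [T.δu, map_one]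
  have hprod : F (0, T.u, 0) ^ (p - 2) * M (0, 0, T.u ^ 2) = 0 := by
    rw [← hMc, ← hp2]
    exact hMp
  have hF0 : F (0, T.u, 0) ≠ 0 := by
    intro h
    rw [h, map_zero] at f1
    exact zero_ne_one f1
  have h2 : M (0, 0, T.u ^ 2) = 0 := by
    rcases mul_eq_zero.1 hprod with h | h
    · exact absurd (eq_zero_of_pow_eq_zero h) hF0
    · exact h
  rw [hM2] at h2
  refine w4_series f0 f1 ?_ ?_ ?_ ?_ ?_ ?_ ?_ h2
  · simp only [M, PowerSeries.coeff_mk, h0, pow_zero, map_one]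
  · simp only [B, PowerSeries.coeff_mk, h0]
  · simp only [B, PowerSeries.coeff_mk, h1, w4_wbr_d]
  · simp only [F, PowerSeries.coeff_mk, h0, map_zero]
  · simp only [F, PowerSeries.coeff_mk, h1, w4_wbr_d, map_zero]
  · simp only [M, PowerSeries.coeff_mk, h0, map_zero]
  · simp only [M, PowerSeries.coeff_mk, h1, w4_wbr_d, map_zero]

end Pool.Agent.Lib.H33K
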