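import Pool.Agent.Lib.H33K.W3
import Pool.Agent.Lib.H33K.W4

/-!
# Positive characteristic: smooth racks are not enough
-/

namespace Pool.Agent.Lib.H33K

open Pool.Agent.Lib.H33S

universe u

/-- Over a field of positive characteristic there is a finite-dimensional Lie algebra which is not the
Leibniz algebra of a smooth affine algebraic rack. -/
theorem exists_not_smooth (k : Type u) [Field k] (hk : ¬ CharZero k) :
    ∃ (q : Type u) (_ : AddCommGroup q) (_ : Module k q) (L : LeibnizAlgebra k q),
      FiniteDimensional k q ∧ (∀ x, L.bracket x x = 0) ∧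
      ∀ (A : Type u) [CommRing A] [Algebra k A], Algebra.Smooth k A → ¬ L.AlgebraicWith A := by
  obtain ⟨p, hp⟩ := CharP.exists k
  have hp0 : p ≠ 0 := by
    rintro rfl
    exact hk (CharP.charP_to_charZero k)
  have hpp : p.Prime := (CharP.char_is_prime_or_zero k p).resolve_right hp0
  obtain ⟨T⟩ := exists_pdata k p hpp
  have hfin : Module.Finite k T.P := T.fin
  refine ⟨k × T.P × T.P, inferInstance, inferInstance, wLie T.δ, inferInstance, wbr_self T.δ, ?_⟩
  intro A _ _ hA hL
  obtain ⟨-, Q, hQ⟩ := hL
  exact no_higher hpp T (exists_higher (wLie T.δ) Q hQ (1, 0, 0))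

end Pool.Agent.Lib.H33K
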